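import Pool.Agent.Helper15.AM.GoalsG
import Pool.Agent.Helper35.RA.V1

/-!
# Project AM, packet AM-VA
-/

set_option autoImplicit false

open LaurentPolynomial

noncomputable section

namespace Pool.Agent.Helper53.AM

open Pool.Agent.Helper15.RA Pool.Agent.Helper45.AM Pool.Agent.Helper15.AM Pool.Agent.Helper35.RA

/-- Induction in a parabolic subgroup. -/
theorem par_ind {S W : Type} [Group W] {M : CoxeterMatrix S} (cs : CoxeterSystem M W) (hG : G_PB) (P : Set S)
    (Q : W → Prop) (h1 : Q 1)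
    (hs : ∀ i ∈ P, ∀ w ∈ par cs P, cs.length (cs.simple i * w) = cs.length w + 1 → Q w → Q (cs.simple i * w)) :
    ∀ w ∈ par cs P, Q w := by
  obtain ⟨-, hP⟩ := hG S W M cs
  obtain ⟨-, -, hleft, -, -, -⟩ := hP P
  have key : ∀ (n : ℕ) (w : W), w ∈ par cs P → cs.length w = n → Q w := by
    intro n
    induction n with
    | zero =>
      intro w _ ha
      rw [CoxeterSystem.length_eq_zero_iff] at ha
      rw [ha]
      exact h1
    | succ n ih =>
      intro w hw ha
      have hne : w ≠ 1 := by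
        intro h
        rw [h, CoxeterSystem.length_one] at ha
        omega
      obtain ⟨i, hi2⟩ := cs.exists_leftDescent_of_ne_one hne
      rw [CoxeterSystem.isLeftDescent_iff] at hi2
      have hiP : i ∈ P := hleft w hw i (by omega)
      have hsi : cs.simple i ∈ par cs P := Subgroup.subset_closure ⟨i, hiP, rfl⟩
      have hw' : cs.simple i * w ∈ par cs P := (par cs P).mul_mem hsi hw
      have h3 := ih (cs.simple i * w) hw' (by omega)
      have h4 : w = cs.simple i * (cs.simple i * w) := by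
        rw [← mul_assoc, cs.simple_mul_simple_self, one_mul]
      have h5 := hs i hiP _ hw' (by rw [← h4]; omega) h3
      rwa [← h4] at h5
  exact fun w hw => key _ w hw rfl

theorem h_va (hH1 : H_1) (hH2 : H_2) (hG : G_PB) : V_A := by
  intro S W H _ _ _ X P
  obtain ⟨ht1, hup, hdown, -, -, -, -, -⟩ := hH1 S W H X.M X.cs X.L X.D.toHecke0
  obtain ⟨hsemi, hb1, hb2, hc1, hc2, hc3, -, -, hcs, -⟩ := hH2 S W H X.M X.cs X.L X.wt X.D
  set R : Set W := (par X.cs P : Set W) with hRdef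
  have hR1 : (1 : W) ∈ R := (par X.cs P).one_mem
  have hsP : ∀ i ∈ P, X.cs.simple i ∈ par X.cs P := fun i hi => Subgroup.subset_closure ⟨i, hi, rfl⟩
  -- multiplication by simple reflections
  have hsm : ∀ i ∈ P, ∀ Z ∈ SupR X.D.t R, X.D.t (X.cs.simple i) * Z ∈ SupR X.D.t R := by
    intro i hi Z hZ
    refine map_mem X.D.t R _ (LinearMap.mulLeft _ (X.D.t (X.cs.simple i))) (fun g hg => ?_) hZ
    rw [LinearMap.mulLeft_apply]
    have hgi : X.cs.simple i * g ∈ R := (par X.cs P).mul_mem (hsP i hi) hg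
    rcases X.cs.length_simple_mul g i with h1 | h1
    · rw [hup i g h1]
      exact t_mem X.D.t R hgi
    · rw [hdown i g h1]
      exact Submodule.add_mem _ (Submodule.smul_mem _ _ (t_mem X.D.t R hg)) (t_mem X.D.t R hgi)
  -- multiplication
  have hmul : ∀ g ∈ par X.cs P, ∀ Z ∈ SupR X.D.t R, X.D.t g * Z ∈ SupR X.D.t R := by
    refine par_ind X.cs hG P _ ?_ ?_
    · intro Z hZ
      rw [ht1, one_mul]
      exact hZ
    · intro i hi w _ hl ih Z hZ
      rw [← hup i w hl, mul_assoc]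
      exact hsm i hi _ (ih Z hZ)
  have hmul2 : ∀ Y ∈ SupR X.D.t R, ∀ Z ∈ SupR X.D.t R, Y * Z ∈ SupR X.D.t R := by
    intro Y hY Z hZ
    exact map_mem X.D.t R _ (LinearMap.mulRight _ Z) (fun g hg => hmul g hg Z hZ) hY
  -- bar
  have hbs : ∀ i, X.D.bar (X.D.t (X.cs.simple i)) = X.D.t (X.cs.simple i) +
      ((T (-(X.L (X.cs.simple i) : ℤ)) : ℤ[T;T⁻¹]) - T (X.L (X.cs.simple i) : ℤ)) • 1 := by
    intro i
    have h1 := X.D.bar_c (X.cs.simple i)
    rw [hcs i, map_add, hsemi, map_one, invert_T, neg_neg] at h1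
    rw [sub_smul, ← add_sub_assoc, ← h1, add_sub_cancel_right]
  have hbar : ∀ g ∈ par X.cs P, X.D.bar (X.D.t g) ∈ SupR X.D.t R := by
    refine par_ind X.cs hG P _ ?_ ?_
    · rw [ht1, map_one, ← ht1]
      exact t_mem X.D.t R hR1
    · intro i hi w _ hl ih
      rw [← hup i w hl, map_mul, hbs, add_mul, smul_mul_assoc, one_mul]
      exact Submodule.add_mem _ (hsm i hi _ ih) (Submodule.smul_mem _ _ ih)
  -- c
  have hc : ∀ g ∈ par X.cs P, X.D.c g ∈ SupR X.D.t R := by
    intro g hg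
    by_contra hne
    rw [mem_SupR] at hne
    push Not at hne
    obtain ⟨k, hk1, hk2⟩ := hne
    set q : W →₀ ℤ[T;T⁻¹] := (X.D.t.repr (X.D.c g)).mapRange (invert : ℤ[T;T⁻¹] → ℤ[T;T⁻¹])
      (map_zero _) with hq
    obtain ⟨y₀, hy1, hy2, hy3⟩ := top_coeff (cs := X.cs) X.D.t R (fun y => X.D.bar (X.D.t y))
      (fun y hy => hbar y hy) hb1 hb2 q ⟨k, hk2, by
        rw [hq, Finsupp.mapRange_apply]
        exact fun h => hk1 (by simpa using h)⟩
    have h1 : (q.sum fun y p => p • X.D.bar (X.D.t y)) = X.D.c g := by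
      rw [hq, Finsupp.sum_mapRange_index (by simp)]
      conv_rhs => rw [← X.D.bar_c g, eq_sum X.D.t (X.D.c g), Finsupp.sum, map_sum]
      rw [Finsupp.sum]
      exact Finset.sum_congr rfl fun z _ => (hsemi _ _).symm
    rw [h1, hq, Finsupp.mapRange_apply] at hy3
    have h2 : y₀ ≠ g := fun h => hy1 (by rw [h]; exact hg)
    have h3 := eq_zero_of_invert (hc3 g y₀ h2) hy3.symm
    apply hy2
    rw [hq, Finsupp.mapRange_apply, h3, map_zero]
  refine ⟨fun g hg g' hg' => hmul g hg _ (t_mem X.D.t R hg'), hbar, hc, ?_, ?_⟩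
  · intro g hg g' hg' k hk
    by_contra hkR
    obtain ⟨y₀, hy1, hy2, hy3⟩ := top_coeff (cs := X.cs) X.D.t R X.D.c hc hc1 hc2 (X.h g g') ⟨k, hkR, hk⟩
    rw [← X.isH g g'] at hy3
    apply hy1
    apply hmul2 _ (hc g hg) _ (hc g' hg')
    rw [hy3]
    exact hy2
  · intro Z
    have hZ : Z = (X.b.repr Z).sum fun z p => p • X.D.c z := by
      conv_lhs => rw [← X.b.linearCombination_repr Z, Finsupp.linearCombination_apply]
      exact Finset.sum_congr rfl fun z _ => by simp only [X.hb]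
    constructor
    · intro h k hk
      by_contra hkR
      obtain ⟨y₀, hy1, hy2, hy3⟩ := top_coeff (cs := X.cs) X.D.t R X.D.c hc hc1 hc2 (X.b.repr Z) ⟨k, hkR, hk⟩
      rw [← hZ] at hy3
      exact hy1 (h y₀ (by rw [hy3]; exact hy2))
    · intro h
      have h2 : Z ∈ SupR X.D.t R := by
        rw [hZ]
        refine Submodule.sum_mem _ fun z hz => Submodule.smul_mem _ _ (hc z (h z (Finsupp.mem_support_iff.1 hz)))
      exact h2

end Pool.Agent.Helper53.AM
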